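import Mathlib

/-!
# MP_7689c7_co : the maximum effective weight of numerical semigroups of given genus

For every numerical semigroup `S` of genus `g` the effective weight of `S` is at most
`⌊(g+1)^2/8⌋`.

Idea of the proof.  Let `m` be the multiplicity, `l` the number of gaps in `(m, 2m)`.  We show
`ew(S) ≤ l * (g + 1 - 2 l)`, which is at most `(g+1)^2/8`.  For a gap `b` let `n(b)` be the number of
minimal generators below `b`, so that `ew(S)` is the sum of the `n(b)`.  Gaps `b` in `(m,2m)` give
`l * q` minus the number `inv` of pairs `b < s` with `b` a gap and `s ∈ S`, both in `(m,2m)`, where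
`q = m - l`.  If `F` is the largest gap and `n(F) = l + p`, `p ≥ 1`, the gaps `b > 2m` with
`n(b) > l` lie in `(F-m,F]`; a count of residues modulo `m` shows that there are at least as many
`c ∈ (m, 2m)` which are gaps and have at least `p` elements of `S` in `(c,2m)`, which gives
`inv ≥ p * #{b : n(b) > l}`.
-/

namespace Pool.Agent.Results.MP_7689c7_co.EffectiveWeightBound

open Finset Classical

/-- `a` is a minimal generator of `S`: a nonzero element of `S` which is not a sum of two nonzero
elements of `S`. -/
def IsMinGen (S : AddSubmonoid ℕ) (a : ℕ) : Prop :=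
  a ∈ S ∧ a ≠ 0 ∧ ¬ ∃ x ∈ S, ∃ y ∈ S, x ≠ 0 ∧ y ≠ 0 ∧ x + y = a

/-- The genus: the number of gaps. -/
noncomputable def genus (S : AddSubmonoid ℕ) : ℕ := Set.ncard {b : ℕ | b ∉ S}

/-- The effective weight: the number of pairs `(a, b)`, `a` a minimal generator, `b` a gap,
`a < b`. -/
noncomputable def ew (S : AddSubmonoid ℕ) : ℕ :=
  Set.ncard {p : ℕ × ℕ | IsMinGen S p.1 ∧ p.2 ∉ S ∧ p.1 < p.2}

/-- The number of minimal generators below `b`. -/
noncomputable def nb (S : AddSubmonoid ℕ) (b : ℕ) : ℕ :=
  ((range b).filter (fun a => IsMinGen S a)).card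

theorem nb_mono (S : AddSubmonoid ℕ) {b c : ℕ} (h : b ≤ c) : nb S b ≤ nb S c := by
  apply card_le_card
  intro a ha
  simp only [mem_filter, mem_range] at ha ⊢
  exact ⟨lt_of_lt_of_le ha.1 h, ha.2⟩

theorem first_elems (R : Finset ℕ) : ∀ k, k ≤ R.card →
    ∃ T, T ⊆ R ∧ T.card = k ∧ ∀ c ∈ T, (R.filter (fun x => x ≤ c)).card ≤ k := by
  induction R using Finset.induction_on_max with
  | empty =>
    intro k hk
    refine ⟨∅, Subset.refl _, ?_, ?_⟩
    · simp only [card_empty] at hk ⊢
      omega
    · intro c hc
      simp at hc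
  | insert a s ha ih =>
    intro k hk
    rcases Nat.lt_or_ge s.card k with h | h
    · have h1 : (insert a s).card ≤ s.card + 1 := card_insert_le _ _
      have h2 : (insert a s).card = k := by omega
      refine ⟨insert a s, Subset.refl _, h2, fun c _ => ?_⟩
      rw [← h2]
      exact card_le_card (filter_subset _ _)
    · obtain ⟨T, hT, hc, hT2⟩ := ih k h
      refine ⟨T, hT.trans (subset_insert _ _), hc, fun c hcT => ?_⟩
      have h3 : (insert a s).filter (fun x => x ≤ c) = s.filter (fun x => x ≤ c) := by
        rw [filter_insert, if_neg (not_le.mpr (ha c (hT hcT)))]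
      rw [h3]
      exact hT2 c hcT

section core

variable (S : AddSubmonoid ℕ) (m : ℕ)

/-- Elements `u < m` with `m + u ∈ S`. -/
noncomputable def Q : Finset ℕ := (range m).filter (fun u => m + u ∈ S)

/-- Elements `u < m` with `m + u ∉ S`. -/
noncomputable def P : Finset ℕ := (range m).filter (fun u => m + u ∉ S)

/-- Elements of `P` which are sums of two elements of `Q`. -/
noncomputable def W : Finset ℕ := (P S m).filter (fun c => ∃ u ∈ Q S m, ∃ v ∈ Q S m, u + v = c)

theorem card_QP : (Q S m).card + (P S m).card = m := by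
  have h := card_filter_add_card_filter_not (s := range m) (fun u => m + u ∈ S)
  rw [card_range] at h
  exact h

theorem mul_mem_S (hmS : m ∈ S) (k : ℕ) : m * k ∈ S := by
  have h := S.nsmul_mem hmS k
  rwa [nsmul_eq_mul, Nat.cast_id, mul_comm] at h

/-- two elements of `S` which are congruent modulo `m`: the bigger is not a generator. -/
theorem gen_inj (hmS : m ∈ S) {a x : ℕ} (ha : IsMinGen S a) (hx : x ∈ S) (hx0 : x ≠ 0)
    (hmod : a % m = x % m) : a ≤ x := by
  by_contra hlt
  push Not at hlt
  have h1 : a - x ∈ S := by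
    have h2 : m ∣ a - x := (Nat.modEq_iff_dvd' hlt.le).mp hmod.symm
    obtain ⟨k, hk⟩ := h2
    rw [hk]
    exact mul_mem_S S m hmS k
  exact ha.2.2 ⟨x, hx, a - x, h1, hx0, by omega, by omega⟩

/-- a number congruent to an element of `S` and at least as large is in `S`. -/
theorem up_mem (hmS : m ∈ S) {b x : ℕ} (hx : x ∈ S) (hle : x ≤ b)
    (hmod : b % m = x % m) : b ∈ S := by
  have h2 : m ∣ b - x := (Nat.modEq_iff_dvd' hle).mp hmod.symm
  obtain ⟨k, hk⟩ := h2
  have h3 : b = x + m * k := by omega
  rw [h3]
  exact S.add_mem hx (mul_mem_S S m hmS k)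

theorem gen_ge (hmin : ∀ x, 0 < x → x < m → x ∉ S) {a : ℕ} (ha : IsMinGen S a) : m ≤ a := by
  by_contra h
  push Not at h
  exact hmin a (Nat.pos_of_ne_zero ha.2.1) h ha.1

/-- the number of generators below `F - m` is at most the number of gaps in `(m,2m)`. -/
theorem low_gens (hm0 : 0 < m) (hmS : m ∈ S) {F b : ℕ} (hF : F ∉ S) (hb : b + m ≤ F) :
    nb S b ≤ (P S m).card := by
  unfold nb
  apply card_le_card_of_injOn (fun a => (F - a) % m)
  · intro a ha
    simp only [coe_filter, mem_range, Set.mem_ofPred_eq] at ha
    simp only [P, coe_filter, mem_range, Set.mem_ofPred_eq]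
    refine ⟨Nat.mod_lt _ hm0, fun h => ?_⟩
    have h1 : F - a ∈ S := by
      apply up_mem S m hmS h
      · have h2 := Nat.div_add_mod (F - a) m
        have h3 : 1 ≤ (F - a) / m := by
          rw [Nat.one_le_div_iff hm0]
          omega
        have h4 : m * 1 ≤ m * ((F - a) / m) := Nat.mul_le_mul_left _ h3
        omega
      · simp
    have h5 : F = a + (F - a) := by omega
    apply hF
    rw [h5]
    exact S.add_mem ha.2.1 h1
  · intro a ha a' ha' h
    simp only [coe_filter, mem_range, Set.mem_ofPred_eq] at ha ha'
    simp only at h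
    have h1 : a % m = a' % m := by
      have h2 : (F - a) ≡ (F - a') [MOD m] := h
      have h3 : a + (F - a) ≡ a' + (F - a') [MOD m] := by
        have e1 : a + (F - a) = F := by omega
        have e2 : a' + (F - a') = F := by omega
        rw [e1, e2]
      exact Nat.ModEq.add_right_cancel h2 h3
    exact le_antisymm (gen_inj S m hmS ha.2 ha'.2.1 ha'.2.2.1 h1)
      (gen_inj S m hmS ha'.2 ha.2.1 ha.2.2.1 h1.symm)

/-- the set `B` of gaps `b > 2m`, `b + m > F`. -/
noncomputable def X (F : ℕ) (B : Finset ℕ) : Finset ℕ :=
  ((range F).filter (fun a => IsMinGen S a)) ∪ B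

theorem card_X (hm0 : 0 < m) (hmS : m ∈ S) (hmin : ∀ x, 0 < x → x < m → x ∉ S) {F : ℕ}
    (B : Finset ℕ) (hB : ∀ b ∈ B, b ∉ S ∧ 2 * m < b ∧ b ≤ F ∧ F < b + m) :
    nb S F + B.card + (W S m).card ≤ m := by
  have hWS : ∀ c ∈ W S m, 2 * m + c ∈ S := by
    intro c hc
    simp only [W, mem_filter] at hc
    obtain ⟨-, u, hu, v, hv, huv⟩ := hc
    simp only [Q, mem_filter] at hu hv
    have h := S.add_mem hu.2 hv.2
    have e : m + u + (m + v) = 2 * m + c := by omega
    rwa [e] at h
  have hWG : ∀ c ∈ W S m, ¬ IsMinGen S (2 * m + c) := by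
    intro c hc hg
    simp only [W, mem_filter] at hc
    obtain ⟨-, u, hu, v, hv, huv⟩ := hc
    simp only [Q, mem_filter] at hu hv
    exact hg.2.2 ⟨m + u, hu.2, m + v, hv.2, by omega, by omega, by omega⟩
  have hWP : ∀ c ∈ W S m, c < m ∧ m + c ∉ S := by
    intro c hc
    simp only [W, P, mem_filter, mem_range] at hc
    exact hc.1
  -- gens and B are disjoint, with distinct residues
  set Ge := (range F).filter (fun a => IsMinGen S a) with hGe
  have hGem : ∀ a, a ∈ Ge ↔ a < F ∧ IsMinGen S a := by
    intro a
    simp only [hGe, mem_filter, mem_range]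
  have d1 : Disjoint Ge B := by
    rw [disjoint_left]
    intro a ha hb
    exact (hB a hb).1 ((hGem a).1 ha).2.1
  have i1 : ∀ a ∈ Ge, ∀ b ∈ B, a % m ≠ b % m := by
    intro a ha b hb hab
    obtain ⟨haF, hag⟩ := (hGem a).1 ha
    obtain ⟨b1, b2, b3, b4⟩ := hB b hb
    rcases le_or_gt a b with h | h
    · exact b1 (up_mem S m hmS hag.1 h hab.symm)
    · have h2 : m ∣ a - b := (Nat.modEq_iff_dvd' h.le).mp hab.symm
      have h3 := Nat.le_of_dvd (by omega) h2
      omega
  have i2 : ∀ a ∈ Ge, ∀ a' ∈ Ge, a % m = a' % m → a = a' := by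
    intro a ha a' ha' h
    obtain ⟨-, hag⟩ := (hGem a).1 ha
    obtain ⟨-, hag'⟩ := (hGem a').1 ha'
    exact le_antisymm (gen_inj S m hmS hag hag'.1 hag'.2.1 h)
      (gen_inj S m hmS hag' hag.1 hag.2.1 h.symm)
  have i3 : ∀ b ∈ B, ∀ b' ∈ B, b % m = b' % m → b = b' := by
    have key : ∀ b ∈ B, ∀ b' ∈ B, b % m = b' % m → b ≤ b' := by
      intro b hb b' hb' h
      obtain ⟨b1, b2, b3, b4⟩ := hB b hb
      obtain ⟨c1, c2, c3, c4⟩ := hB b' hb'
      by_contra hlt
      push Not at hlt
      have h2 : m ∣ b - b' := (Nat.modEq_iff_dvd' hlt.le).mp h.symm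
      have h3 := Nat.le_of_dvd (by omega) h2
      omega
    intro b hb b' hb' h
    exact le_antisymm (key b hb b' hb' h) (key b' hb' b hb h.symm)
  have i4 : ∀ x ∈ Ge ∪ B, ∀ y ∈ Ge ∪ B, x % m = y % m → x = y := by
    intro x hx y hy h
    rcases mem_union.1 hx with hx | hx <;> rcases mem_union.1 hy with hy | hy
    · exact i2 x hx y hy h
    · exact absurd h (i1 x hx y hy)
    · exact absurd h.symm (i1 y hy x hx)
    · exact i3 x hx y hy h
  have i5 : ∀ x ∈ Ge ∪ B, x % m ∉ W S m := by
    intro x hx hc
    obtain ⟨hcm, hcS⟩ := hWP _ hc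
    have hc2 := hWS _ hc
    have hc3 := hWG _ hc
    rcases mem_union.1 hx with hx | hx
    · obtain ⟨haF, hag⟩ := (hGem x).1 hx
      have hxm := gen_ge S m hmin hag
      have h1 : x ≤ 2 * m + x % m := by
        apply gen_inj S m hmS hag hc2
        · omega
        · rw [mul_comm, Nat.mul_add_mod, Nat.mod_mod]
      have hdm := Nat.div_add_mod x m
      have hd1 : 1 ≤ x / m := by
        rw [Nat.one_le_div_iff hm0]
        exact hxm
      have hd2 : x / m ≤ 2 := by
        by_contra hh
        push Not at hh
        have h4 : m * 3 ≤ m * (x / m) := Nat.mul_le_mul_left _ hh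
        omega
      have hd3 : x / m = 1 ∨ x / m = 2 := by omega
      rcases hd3 with h | h
      · rw [h, mul_one] at hdm
        rw [hdm] at hcS
        exact hcS hag.1
      · rw [h, mul_comm] at hdm
        rw [hdm] at hc3
        exact hc3 hag
    · obtain ⟨b1, b2, b3, b4⟩ := hB x hx
      apply b1
      apply up_mem S m hmS hc2
      · have hdm := Nat.div_add_mod x m
        have hd1 : 2 ≤ x / m := by
          rw [Nat.le_div_iff_mul_le hm0]
          omega
        have h4 : m * 2 ≤ m * (x / m) := Nat.mul_le_mul_left _ hd1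
        omega
      · rw [mul_comm 2 m, Nat.mul_add_mod, Nat.mod_mod]
  -- count residues
  have hcard : ((Ge ∪ B).image (fun x => x % m) ∪ W S m).card ≤ (range m).card := by
    apply card_le_card
    intro x hx
    rcases mem_union.1 hx with hx | hx
    · obtain ⟨y, -, rfl⟩ := mem_image.1 hx
      exact mem_range.2 (Nat.mod_lt _ hm0)
    · exact mem_range.2 (hWP x hx).1
  have hdis : Disjoint ((Ge ∪ B).image (fun x => x % m)) (W S m) := by
    rw [disjoint_left]
    intro x hx
    obtain ⟨y, hy, rfl⟩ := mem_image.1 hx
    exact i5 y hy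
  rw [card_union_of_disjoint hdis, card_range,
    card_image_of_injOn (fun x hx y hy h => i4 x (mem_coe.1 hx) y (mem_coe.1 hy) h),
    card_union_of_disjoint d1] at hcard
  exact hcard

/-- for `c ∈ P \ W`, at most `#{x ∈ P : x ≤ c}` elements of `Q` are below `c`. -/
theorem q_le (c : ℕ) (hc : c ∈ P S m) (hcW : c ∉ W S m) :
    ((Q S m).filter (fun u => u < c)).card ≤ ((P S m).filter (fun x => x ≤ c)).card := by
  apply card_le_card_of_injOn (fun u => c - u)
  · intro u hu
    simp only [coe_filter, Set.mem_ofPred_eq] at hu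
    simp only [coe_filter, Set.mem_ofPred_eq]
    refine ⟨?_, by omega⟩
    have hcm : c < m := by
      simp only [P, mem_filter, mem_range] at hc
      exact hc.1
    simp only [P, mem_filter, mem_range]
    refine ⟨by omega, fun h => ?_⟩
    apply hcW
    simp only [W, mem_filter]
    refine ⟨hc, u, hu.1, c - u, ?_, by omega⟩
    simp only [Q, mem_filter, mem_range]
    exact ⟨by omega, h⟩
  · intro u hu v hv h
    simp only [coe_filter, Set.mem_ofPred_eq] at hu hv
    simp only at h
    omega

/-- the main inequality for the gaps above `2m`. -/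
theorem high_gaps (hm0 : 0 < m) (hmS : m ∈ S) (hmin : ∀ x, 0 < x → x < m → x ∉ S)
    (G2 : Finset ℕ) (hG2 : ∀ b ∈ G2, b ∉ S ∧ 2 * m < b) :
    ∑ b ∈ G2, nb S b ≤ (P S m).card * G2.card +
      ∑ c ∈ P S m, ((Q S m).card - ((Q S m).filter (fun u => u < c)).card) := by
  rcases G2.eq_empty_or_nonempty with h0 | hne
  · rw [h0]
    simp
  obtain ⟨F, hFG, hFmax⟩ := G2.exists_max_image (fun b => b) hne
  obtain ⟨hFS, hF2⟩ := hG2 F hFG
  rcases Nat.lt_or_ge (P S m).card (nb S F) with hlt | hge
  · -- the set B
    set p := nb S F - (P S m).card with hp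
    set B := G2.filter (fun b => (P S m).card < nb S b) with hBd
    have hB : ∀ b ∈ B, b ∉ S ∧ 2 * m < b ∧ b ≤ F ∧ F < b + m := by
      intro b hb
      simp only [hBd, mem_filter] at hb
      refine ⟨(hG2 b hb.1).1, (hG2 b hb.1).2, hFmax b hb.1, ?_⟩
      by_contra hh
      push Not at hh
      have := low_gens S m hm0 hmS hFS hh
      omega
    have hX := card_X S m hm0 hmS hmin B hB
    -- upper bound of the sum
    have h1 : ∑ b ∈ G2, nb S b ≤ (P S m).card * G2.card + B.card * p := by
      have h2 : ∀ b ∈ G2, nb S b ≤ (P S m).card + (if (P S m).card < nb S b then p else 0) := by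
        intro b hb
        split_ifs with h
        · have h3 : nb S b ≤ nb S F := nb_mono S (hFmax b hb)
          omega
        · omega
      refine (sum_le_sum h2).trans ?_
      rw [sum_add_distrib, sum_const, smul_eq_mul, ← sum_filter, sum_const, smul_eq_mul,
        mul_comm (P S m).card]
    -- B has at most #(P \ W) elements
    have hR : B.card ≤ (P S m \ W S m).card := by
      apply card_le_card_of_injOn (fun b => b % m)
      · intro b hb
        obtain ⟨b1, b2, b3, b4⟩ := hB b (mem_coe.1 hb)
        have hdm := Nat.div_add_mod b m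
        have hd1 : 2 ≤ b / m := by
          rw [Nat.le_div_iff_mul_le hm0]
          omega
        have h4 : m * 2 ≤ m * (b / m) := Nat.mul_le_mul_left _ hd1
        have hmod := Nat.mod_lt b hm0
        simp only [coe_sdiff, Set.mem_sdiff, mem_coe]
        constructor
        · simp only [P, mem_filter, mem_range]
          refine ⟨hmod, fun h => b1 ?_⟩
          apply up_mem S m hmS h
          · omega
          · simp
        · intro h
          simp only [W, mem_filter] at h
          obtain ⟨-, u, hu, v, hv, huv⟩ := h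
          simp only [Q, mem_filter] at hu hv
          have h := S.add_mem hu.2 hv.2
          apply b1
          apply up_mem S m hmS h
          · omega
          · have e : m + u + (m + v) = m * 2 + b % m := by omega
            rw [e, Nat.mul_add_mod, Nat.mod_mod]
      · intro b hb b' hb' h
        simp only at h
        obtain ⟨b1, b2, b3, b4⟩ := hB b (mem_coe.1 hb)
        obtain ⟨c1, c2, c3, c4⟩ := hB b' (mem_coe.1 hb')
        rcases lt_trichotomy b b' with hl | hl | hl
        · have h2 : m ∣ b' - b := (Nat.modEq_iff_dvd' hl.le).mp h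
          have h3 := Nat.le_of_dvd (by omega) h2
          omega
        · exact hl
        · have h2 : m ∣ b - b' := (Nat.modEq_iff_dvd' hl.le).mp h.symm
          have h3 := Nat.le_of_dvd (by omega) h2
          omega
    obtain ⟨T, hTR, hTc, hT⟩ := first_elems (P S m \ W S m) B.card hR
    have hTP : T ⊆ P S m := hTR.trans sdiff_subset
    -- each c in T has at least p elements of Q above
    have h5 : ∀ c ∈ T, p ≤ (Q S m).card - ((Q S m).filter (fun u => u < c)).card := by
      intro c hc
      have hcR := mem_sdiff.1 (hTR hc)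
      have h6 := q_le S m c hcR.1 hcR.2
      have h7 : ((P S m).filter (fun x => x ≤ c)).card ≤
          (W S m).card + ((P S m \ W S m).filter (fun x => x ≤ c)).card := by
        refine le_trans (card_le_card ?_) (card_union_le _ _)
        intro x hx
        simp only [mem_filter] at hx
        by_cases hxW : x ∈ W S m
        · exact mem_union_left _ hxW
        · apply mem_union_right
          simp only [mem_filter, mem_sdiff]
          exact ⟨⟨hx.1, hxW⟩, hx.2⟩
      have h8 := hT c hc
      have h9 := card_QP S m
      omega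
    have h10 : B.card * p ≤
        ∑ c ∈ P S m, ((Q S m).card - ((Q S m).filter (fun u => u < c)).card) := by
      calc B.card * p = ∑ c ∈ T, p := by rw [sum_const, smul_eq_mul, hTc]
        _ ≤ ∑ c ∈ T, ((Q S m).card - ((Q S m).filter (fun u => u < c)).card) := sum_le_sum h5
        _ ≤ _ := sum_le_sum_of_subset hTP
    omega
  · have h1 : ∑ b ∈ G2, nb S b ≤ ∑ b ∈ G2, (P S m).card := by
      apply sum_le_sum
      intro b hb
      exact (nb_mono S (hFmax b hb)).trans hge
    rw [sum_const, smul_eq_mul, mul_comm] at h1
    omega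

end core

/-- **The refined inequality**: the sum over the gaps is at most `l * (q + Y)`, and
`g + 1 = q + 2 l + Y`. -/
theorem refined (S : AddSubmonoid ℕ) (m : ℕ) (hm0 : 0 < m) (hmS : m ∈ S)
    (hmin : ∀ x, 0 < x → x < m → x ∉ S) (G : Finset ℕ) (hG : ∀ b, b ∈ G ↔ b ∉ S) :
    ∃ l k : ℕ, G.card + 1 = k + 2 * l ∧ ∑ b ∈ G, nb S b ≤ l * k := by
  set G2 := G.filter (fun b => 2 * m < b) with hG2
  set l := (P S m).card with hl
  set q := (Q S m).card with hq
  have hQP := card_QP S m
  refine ⟨l, q + G2.card, ?_, ?_⟩
  · -- the count of gaps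
    have h1 : G.card = (G.filter (fun b => b < m)).card + (G.filter (fun b => ¬ b < m)).card :=
      (card_filter_add_card_filter_not _).symm
    have h2 : (G.filter (fun b => b < m)).card + 1 = m := by
      have e : insert 0 (G.filter (fun b => b < m)) = range m := by
        ext x
        simp only [mem_insert, mem_filter, mem_range, hG]
        constructor
        · rintro (h | h)
          · omega
          · exact h.2
        · intro h
          rcases Nat.eq_zero_or_pos x with h0 | h0
          · exact Or.inl h0
          · exact Or.inr ⟨hmin x h0 h, h⟩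
      have h3 : (insert 0 (G.filter (fun b => b < m))).card = m := by rw [e, card_range]
      rw [card_insert_of_notMem] at h3
      · exact h3
      · simp only [mem_filter, hG, not_and]
        intro h
        exact absurd S.zero_mem h
    have h4 : (G.filter (fun b => ¬ b < m)).card = l + G2.card := by
      have e : G.filter (fun b => ¬ b < m) = (P S m).image (fun u => m + u) ∪ G2 := by
        ext x
        simp only [mem_filter, hG, mem_union, mem_image, P, mem_range, hG2]
        constructor
        · rintro ⟨hx, hxm⟩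
          rcases Nat.lt_or_ge (2 * m) x with h | h
          · exact Or.inr ⟨hx, h⟩
          · left
            have hx2 : x ≠ 2 * m := by
              rintro rfl
              apply hx
              rw [two_mul]
              exact S.add_mem hmS hmS
            refine ⟨x - m, ⟨by omega, ?_⟩, by omega⟩
            have e : m + (x - m) = x := by omega
            rw [e]
            exact hx
        · rintro (⟨u, ⟨hu, hu2⟩, rfl⟩ | ⟨hx, h⟩)
          · exact ⟨hu2, by omega⟩
          · exact ⟨hx, by omega⟩
      rw [e, card_union_of_disjoint, card_image_of_injective _ (fun a b h => by simpa using h)]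
      rw [disjoint_left]
      intro x hx hx2
      obtain ⟨u, hu, rfl⟩ := mem_image.1 hx
      simp only [P, mem_filter, mem_range] at hu
      simp only [hG2, mem_filter] at hx2
      omega
    omega
  · -- the sum
    have hs0 : ∑ b ∈ G.filter (fun b => b < m), nb S b = 0 := by
      apply sum_eq_zero
      intro b hb
      simp only [mem_filter] at hb
      unfold nb
      rw [card_eq_zero, filter_eq_empty_iff]
      intro a ha hg
      have := gen_ge S m hmin hg
      rw [mem_range] at ha
      omega
    have hs1 : ∑ b ∈ G.filter (fun b => ¬ b < m), nb S b =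
        ∑ u ∈ P S m, nb S (m + u) + ∑ b ∈ G2, nb S b := by
      have e : G.filter (fun b => ¬ b < m) = (P S m).image (fun u => m + u) ∪ G2 := by
        ext x
        simp only [mem_filter, hG, mem_union, mem_image, P, mem_range, hG2]
        constructor
        · rintro ⟨hx, hxm⟩
          rcases Nat.lt_or_ge (2 * m) x with h | h
          · exact Or.inr ⟨hx, h⟩
          · left
            have hx2 : x ≠ 2 * m := by
              rintro rfl
              apply hx
              rw [two_mul]
              exact S.add_mem hmS hmS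
            refine ⟨x - m, ⟨by omega, ?_⟩, by omega⟩
            have e : m + (x - m) = x := by omega
            rw [e]
            exact hx
        · rintro (⟨u, ⟨hu, hu2⟩, rfl⟩ | ⟨hx, h⟩)
          · exact ⟨hu2, by omega⟩
          · exact ⟨hx, by omega⟩
      rw [e, sum_union, sum_image (fun a _ b _ h => by simpa using h)]
      rw [disjoint_left]
      intro x hx hx2
      obtain ⟨u, hu, rfl⟩ := mem_image.1 hx
      simp only [P, mem_filter, mem_range] at hu
      simp only [hG2, mem_filter] at hx2
      omega
    have hs : ∑ b ∈ G, nb S b =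
        ∑ b ∈ G.filter (fun b => b < m), nb S b + ∑ b ∈ G.filter (fun b => ¬ b < m), nb S b :=
      (sum_filter_add_sum_filter_not _ _ _).symm
    -- gaps between m and 2m
    have hq1 : ∀ u ∈ P S m, nb S (m + u) ≤ ((Q S m).filter (fun x => x < u)).card := by
      intro u hu
      simp only [P, mem_filter, mem_range] at hu
      unfold nb
      apply card_le_card_of_injOn (fun a => a - m)
      · intro a ha
        simp only [coe_filter, mem_range, Set.mem_ofPred_eq] at ha
        have h3 := gen_ge S m hmin ha.2
        simp only [coe_filter, Set.mem_ofPred_eq, Q, mem_filter, mem_range]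
        refine ⟨⟨by omega, ?_⟩, by omega⟩
        have e : m + (a - m) = a := by omega
        rw [e]
        exact ha.2.1
      · intro a ha a' ha' h
        simp only [coe_filter, mem_range, Set.mem_ofPred_eq] at ha ha'
        have h3 := gen_ge S m hmin ha.2
        have h3' := gen_ge S m hmin ha'.2
        simp only at h
        omega
    have hG2' : ∀ b ∈ G2, b ∉ S ∧ 2 * m < b := by
      intro b hb
      simp only [hG2, mem_filter, hG] at hb
      exact hb
    have hh : ∑ b ∈ G2, nb S b ≤ l * G2.card +
        ∑ c ∈ P S m, ((Q S m).card - ((Q S m).filter (fun u => u < c)).card) :=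
      high_gaps S m hm0 hmS hmin G2 hG2'
    have hq2 : ∑ u ∈ P S m, nb S (m + u) +
        ∑ c ∈ P S m, ((Q S m).card - ((Q S m).filter (fun u => u < c)).card) ≤ l * q := by
      rw [← sum_add_distrib]
      have h3 : ∀ c ∈ P S m, nb S (m + c) +
          ((Q S m).card - ((Q S m).filter (fun u => u < c)).card) ≤ q := by
        intro c hc
        have h4 := hq1 c hc
        have h5 : ((Q S m).filter (fun u => u < c)).card ≤ (Q S m).card :=
          card_le_card (filter_subset _ _)
        omega
      refine (sum_le_sum h3).trans ?_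
      rw [sum_const, smul_eq_mul]
    have e2 : l * (q + G2.card) = l * q + l * G2.card := by ring
    rw [e2]
    omega

/-- **Theorem.** Every numerical semigroup `S` of genus `g` has effective weight at most
`⌊(g+1)^2/8⌋`. -/
theorem result (S : AddSubmonoid ℕ) (hfin : {b : ℕ | b ∉ S}.Finite) :
    ew S ≤ (genus S + 1) ^ 2 / 8 := by
  -- the multiplicity
  have hex : ∃ x, 0 < x ∧ x ∈ S := by
    by_contra hne
    push Not at hne
    apply Set.infinite_of_injective_forall_mem (f := fun n : ℕ => n + 1)
      (fun a b h => by simpa using h) (s := {b : ℕ | b ∉ S}) (fun n => hne (n + 1) (by omega)) hfin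
  set m := Nat.find hex with hm
  obtain ⟨hm0, hmS⟩ := Nat.find_spec hex
  have hmin : ∀ x, 0 < x → x < m → x ∉ S := by
    intro x hx0 hxm hxS
    exact Nat.find_min hex hxm ⟨hx0, hxS⟩
  set G := hfin.toFinset with hGd
  have hG : ∀ b, b ∈ G ↔ b ∉ S := by
    intro b
    simp [hGd]
  have hgen : genus S = G.card := by
    unfold genus
    rw [hGd, Set.ncard_eq_toFinset_card _ hfin]
  obtain ⟨l, k, hlk, hsum⟩ := refined S m hm0 hmS hmin G hG
  -- the effective weight as a sum
  have hew : ew S ≤ ∑ b ∈ G, nb S b := by
    unfold ew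
    set E : Finset (ℕ × ℕ) := G.biUnion (fun b =>
      ((range b).filter (fun a => IsMinGen S a)).image (fun a => (a, b))) with hE
    have h1 : {p : ℕ × ℕ | IsMinGen S p.1 ∧ p.2 ∉ S ∧ p.1 < p.2} ⊆ (E : Set (ℕ × ℕ)) := by
      rintro ⟨a, b⟩ ⟨h1, h2, h3⟩
      simp only [hE, coe_biUnion, Set.mem_iUnion, mem_coe, mem_image, mem_filter, mem_range]
      exact ⟨b, (hG b).2 h2, a, ⟨h3, h1⟩, rfl⟩
    refine (Set.ncard_le_ncard h1 E.finite_toSet).trans ?_
    rw [Set.ncard_coe_finset]
    refine card_biUnion_le.trans ?_
    apply sum_le_sum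
    intro b _
    exact card_image_le
  rw [Nat.le_div_iff_mul_le (by norm_num), hgen, hlk]
  have h2 : ew S * 8 ≤ l * k * 8 := Nat.mul_le_mul_right _ (hew.trans hsum)
  refine h2.trans ?_
  zify
  nlinarith [sq_nonneg ((k : ℤ) - 2 * l)]

end Pool.Agent.Results.MP_7689c7_co.EffectiveWeightBound
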